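import Pool.Agent.Helper45.M.INTe
import Pool.Agent.SC.PlaceExt

/-!
# Project TW3, block W6a: the sign from the value of the root
-/

set_option autoImplicit false

namespace Pool.Agent.TW3.SG

open VC IntermediateField NumberField IsDedekindDomain Pool.Agent.SC Pool.Agent.L Pool.Agent.M

section

variable {E U : Type} [Field E] [Field U] [Algebra E U]
  {K0 : Type} [Field K0] [Algebra K0 U] {σ : E ≃+* E} {T : U ≃+* U}

/-- places extend -/
theorem exists_up {N N' : IntermediateField E U} (hle : N ≤ N') (P : Place E N) :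
    ∃ Q : Place E N', OverPl P Q := by
  letI : Algebra N N' := (IntermediateField.inclusion hle).toAlgebra
  haveI : IsScalarTower E N N' := IsScalarTower.of_algebraMap_eq fun e => by
    apply Subtype.ext
    rfl
  obtain ⟨Q, hQ⟩ := _root_.SC.exists_place_over (K := E) (M := N) (N := N') P
  refine ⟨Q, fun x hx hx' => ?_⟩
  rw [← hQ]
  exact Iff.rfl

/-- **The sign**: `y = z g` has the square `ρ²` at `P`, `T y = ε y`, `σ ρ = δ ρ`. -/
theorem sgn_val [IsAlgClosed E] [CharZero E] (hF : IsFunctionField E (L0 E K0 (U := U)))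
    {b b' : Place E (L0 E K0 (U := U))} {z : U} (hz : IsZ b b' z)
    {P : Place E (NN E K0 2 (U := U))} (hT : Semi K0 σ T) (hmP : Moves T _ P P) {g : U}
    (hg : g ∈ NN E K0 2 (U := U)) (hg0 : g ≠ 0) {ρ : E} (hρ : ρ ≠ 0)
    (hv : ∀ h : (z * g) ^ 2 ∈ NN E K0 2 (U := U),
      Cg P.ring (⟨(z * g) ^ 2, h⟩ : NN E K0 2 (U := U)) (ρ ^ 2))
    {ε δ : ℤˣ} (hε : T (z * g) = ((ε : ℤ) : U) * (z * g)) (hδ : σ ρ = ((δ : ℤ) : E) * ρ) :
    sgn T P z = ε * δ := by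
  classical
  have hch : CharZero U := charZero_of_injective_algebraMap (algebraMap E U).injective
  have hz2 := hz.sq_mem
  have hz0 : z ≠ 0 := hz.1
  have hLN : L0 E K0 (U := U) ≤ NN E K0 2 := L0_le_NN 2
  have hNZ : NN E K0 2 ≤ NZ E K0 z := NN_le_NZ z
  have hzB : z ∈ NZ E K0 z := mem_NZ z
  obtain ⟨y, hy⟩ : ∃ y : U, y = z * g := ⟨_, rfl⟩
  rw [← hy] at hε
  have hy0 : y ≠ 0 := by rw [hy]; exact mul_ne_zero hz0 hg0
  have hyB : y ∈ NZ E K0 z := by rw [hy]; exact mul_mem hzB (hNZ hg)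
  have hy2A : y ^ 2 ∈ NN E K0 2 (U := U) := by
    rw [hy, mul_pow]; exact mul_mem (hLN hz2) (pow_mem hg 2)
  have hTy : T y ∈ NZ E K0 z := by
    rw [hε]; exact mul_mem (intCast_mem _ _) hyB
  have hTg0 : T g ≠ 0 := (map_ne_zero_iff T T.injective).2 hg0
  have hTz' : T z ∈ NZ E K0 z := by
    have h1 : T z = T y * (T g)⁻¹ := by
      rw [hy, map_mul, mul_inv_cancel_right₀ hTg0]
    rw [h1]
    exact mul_mem hTy (inv_mem (hNZ (hT.NN_map hF 2 _ hg)))
  have hQE : ∀ (Q : Place E (NZ E K0 z)) (e : E), algebraMap E (NZ E K0 z) e ∈ Q.ring :=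
    fun Q e => Q.algebraMap_mem e
  have hee : ∀ ε : ℤˣ, ((ε : ℤ) : E) * ((ε : ℤ) : E) = 1 := fun ε => by
    rw [← Int.cast_mul, Int.units_coe_mul_self, Int.cast_one]
  have heeU : ((ε : ℤ) : U) * ((ε : ℤ) : U) = 1 := by
    rw [← Int.cast_mul, Int.units_coe_mul_self, Int.cast_one]
  -- the value of `y` at the places above `P`
  have hval : ∀ Q : Place E (NZ E K0 z), OverPl P Q →
      ∃ ρ' : E, Cg Q.ring (⟨y, hyB⟩ : NZ E K0 z) ρ' ∧ ρ' ≠ 0 ∧ σ ρ' = ((δ : ℤ) : E) * ρ' := by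
    intro Q hQ
    have hx : y ^ 2 ∈ NZ E K0 z := hNZ hy2A
    have h0 : (z * g) ^ 2 ∈ NN E K0 2 (U := U) := by rw [← hy]; exact hy2A
    have h1 : Cg P.ring (⟨y ^ 2, hy2A⟩ : NN E K0 2 (U := U)) (ρ ^ 2) := by
      have e : (⟨y ^ 2, hy2A⟩ : NN E K0 2 (U := U)) = ⟨(z * g) ^ 2, h0⟩ := Subtype.ext (by
        show y ^ 2 = (z * g) ^ 2
        rw [hy])
      rw [e]
      exact hv h0
    have h2 := (hQ.cg hy2A hx (c := ρ ^ 2)).1 h1
    have e : (⟨y, hyB⟩ : NZ E K0 z) ^ 2 = ⟨y ^ 2, hx⟩ := Subtype.ext rfl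
    rw [← e] at h2
    rcases cg_of_sq h2 with h3 | h3
    · exact ⟨ρ, h3, hρ, hδ⟩
    · exact ⟨-ρ, h3, neg_ne_zero.2 hρ, by rw [map_neg, hδ]; ring⟩
  have hTyv : ∀ (Q : Place E (NZ E K0 z)) (ρ' : E), Cg Q.ring (⟨y, hyB⟩ : NZ E K0 z) ρ' →
      Cg Q.ring (⟨T y, hTy⟩ : NZ E K0 z) (((ε : ℤ) : E) * ρ') := by
    intro Q ρ' h
    have h2 := (cg_const (V := Q.ring) (((ε : ℤ) : E))).mul (hQE Q) h
    have e : (algebraMap E (NZ E K0 z) ((ε : ℤ) : E) * ⟨y, hyB⟩ : NZ E K0 z) = ⟨T y, hTy⟩ := by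
      apply Subtype.ext
      show algebraMap E U ((ε : ℤ) : E) * y = T y
      rw [map_intCast, hε]
    rw [e] at h2
    exact h2
  unfold sgn
  split_ifs with hall
  · -- all places are fixed
    obtain ⟨Q₀, hQ₀⟩ := exists_up hNZ P
    obtain ⟨ρ', h1, h2, h3⟩ := hval Q₀ hQ₀
    have h4 := ((hall Q₀ hQ₀).cg hT.const hyB hTy).1 h1
    have h5 := (hTyv Q₀ ρ' h1).unique (hQE Q₀) h4
    rw [h3] at h5
    have h6 : ((ε : ℤ) : E) = ((δ : ℤ) : E) := mul_right_cancel₀ h2 h5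
    have h7 : (ε : ℤ) = δ := by exact_mod_cast h6
    rw [Units.ext h7, Int.units_mul_self]
  · by_contra hcon
    apply hall
    have hεδ : ε = δ := by
      rcases Int.units_eq_one_or ε with h1 | h1 <;> rcases Int.units_eq_one_or δ with h2 | h2 <;>
        rw [h1, h2] at hcon ⊢ <;> simp at hcon
    intro Q hQ
    obtain ⟨ρ', hρ', hρ'0, hσρ'⟩ := hval Q hQ
    have hmapB := hT.NZ_map hF hTz'
    let TB : NZ E K0 z →+* NZ E K0 z :=
      { toFun := fun x => ⟨T x, hmapB x x.2⟩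
        map_one' := Subtype.ext (map_one T)
        map_mul' := fun x x' => Subtype.ext (map_mul T _ _)
        map_zero' := Subtype.ext (map_zero T)
        map_add' := fun x x' => Subtype.ext (map_add T _ _) }
    let V' : ValuationSubring (NZ E K0 z) := Q.ring.comap TB
    let A : Subfield (NZ E K0 z) :=
      (NN E K0 2 (U := U)).toSubfield.comap (algebraMap (NZ E K0 z) U)
    have hEA : ∀ e : E, algebraMap E (NZ E K0 z) e ∈ A := fun e =>
      (IntermediateField.algebraMap_mem (NN E K0 2 (U := U)) e)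
    have hTBE : ∀ e : E, TB (algebraMap E _ e) = algebraMap E (NZ E K0 z) (σ e) := fun e =>
      Subtype.ext (hT.const e)
    have hE' : ∀ e : E, algebraMap E (NZ E K0 z) e ∈ V' := fun e => by
      show TB (algebraMap E _ e) ∈ Q.ring
      rw [hTBE]
      exact hQE Q _
    have hA : ∀ x ∈ A, x ∈ Q.ring ↔ x ∈ V' := by
      rintro ⟨x, hxB⟩ hxA
      have hxA' : x ∈ NN E K0 2 (U := U) := hxA
      have hTxA : T x ∈ NN E K0 2 (U := U) := hT.NN_map hF 2 x hxA'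
      rw [← hQ x hxA' hxB, hmP x hxA' hTxA, hQ (T x) hTxA (hmapB x hxB)]
      exact Iff.rfl
    have hrep : ∀ x : NZ E K0 z, ∃ α ∈ A, ∃ β ∈ A, x = α + β * ⟨y, hyB⟩ := by
      rintro ⟨x, hx⟩
      obtain ⟨α, hα, β, hβ, rfl⟩ := nz_rep (hLN hz2) x hx
      refine ⟨⟨α, hNZ hα⟩, hα, ⟨β * g⁻¹, hNZ (mul_mem hβ (inv_mem hg))⟩,
        mul_mem hβ (inv_mem hg), ?_⟩
      apply Subtype.ext
      show α + β * z = α + β * g⁻¹ * y
      rw [hy]
      field_simp
    have h2E : (2 : E) ≠ 0 := two_ne_zero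
    have hcg' : Cg V' (⟨y, hyB⟩ : NZ E K0 z) ρ' := by
      show V'.valuation _ < 1
      rw [comap_lt, map_sub, hTBE]
      have h5 := hTyv Q ρ' hρ'
      rw [hεδ, ← hσρ'] at h5
      exact h5
    intro x hx hx'
    have hy2A' : (⟨y, hyB⟩ : NZ E K0 z) ^ 2 ∈ A := hy2A
    constructor
    · intro hxQ
      exact mem_of_quad A (hQE Q) hE' hEA hA hy2A' hrep hρ'0 h2E hρ' hcg' hxQ
    · intro hxQ
      have h7 : (⟨x, hx⟩ : NZ E K0 z) ∈ V' := hxQ
      exact mem_of_quad A hE' (hQE Q) hEA (fun x hx => (hA x hx).symm) hy2A' hrep hρ'0 h2E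
        hcg' hρ' h7

end

end Pool.Agent.TW3.SG
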