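import Pool.Agent.Helper28.TW3.SGDefs
import Pool.Agent.Helper28.TW3.SGa
import Pool.Agent.Helper28.TW.KX2
import Pool.Agent.Helper45.TW.SOI3

/-!
# Project TW3, block W6a: the signs at two rational branch points
-/

set_option autoImplicit false

namespace Pool.Agent.TW3

open VC IntermediateField NumberField IsDedekindDomain Pool.Agent.SC Pool.Agent.L Pool.Agent.M

namespace SG

section wrap

variable {E U : Type} [Field E] [Field U] [Algebra E U]
  {K0 : Type} [Field K0] [Algebra K0 U] {σ : E ≃+* E} {T : U ≃+* U}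

theorem sgn_wrap [IsAlgClosed E] [CharZero E] (hF : IsFunctionField E (L0 E K0 (U := U)))
    {a b b' : Place E (L0 E K0 (U := U))} {z z0 : U} (hz : IsZ b b' z) (hz0 : IsZ b b' z0)
    {P : Place E (NN E K0 2 (U := U))} (hP : OverPl a P) (hT : Semi K0 σ T)
    (hmP : Moves T _ P P) {l f0 : L0 E K0 (U := U)} (hl : l ≠ 0) (hTl : T (l : U) = l)
    (hf0 : (f0 : U) = (z0 * l) ^ 2) {ρ : E} (hρ : ρ ≠ 0) (hv : Cg a.ring f0 (ρ ^ 2))
    {ε δ : ℤˣ} (hε : T z0 = ((ε : ℤ) : U) * z0) (hδ : σ ρ = ((δ : ℤ) : E) * ρ) :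
    sgn T P z = ε * δ := by
  have hLN : L0 E K0 (U := U) ≤ NN E K0 2 := L0_le_NN 2
  have hlU : (l : U) ≠ 0 := fun h => hl (Subtype.ext h)
  have hzz : z * (z0 * z⁻¹ * l) = z0 * l := by
    have := hz.1
    field_simp
  refine sgn_val hF hz hT hmP (g := z0 * z⁻¹ * l)
    (mul_mem (hz0.div hF hz).mem (hLN l.2))
    (mul_ne_zero (mul_ne_zero hz0.1 (inv_ne_zero hz.1)) hlU) hρ ?_ ?_ hδ
  · intro h
    have h1 := (hP.cg f0.2 (hLN f0.2) (c := ρ ^ 2)).1 hv
    have e : (⟨(z * (z0 * z⁻¹ * l)) ^ 2, h⟩ : NN E K0 2 (U := U)) = ⟨(f0 : U), hLN f0.2⟩ := by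
      apply Subtype.ext
      show (z * (z0 * z⁻¹ * l)) ^ 2 = (f0 : U)
      rw [hzz, hf0]
    rw [e]
    exact h1
  · rw [hzz, map_mul, hε, hTl, mul_assoc]

/-- a generator of the rational function field has exactly one zero -/
theorem zero_unique {F : Type} [Field F] [Algebra E F] [IsAlgClosed E]
    (hF : IsFunctionField E F) {t : F} (htr : Transcendental E t) (hgen : E⟮t⟯ = ⊤)
    {P P' : Place E F} (h : t ∈ P.ring.nonunits) (h' : t ∈ P'.ring.nonunits) :
    P = P' ∧ ord P.ring t = 1 := by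
  classical
  have ht0 : t ≠ 0 := by
    rintro rfl
    exact htr isAlgebraic_zero
  have hfr : Module.finrank E⟮t⟯ F = 1 := by rw [hgen, IntermediateField.finrank_top]
  have h1 := (FF.ord_pos_iff hF P ht0).2 h
  have h1' := (FF.ord_pos_iff hF P' ht0).2 h'
  constructor
  · by_contra hne
    have h2 := FF.sum_ord_le hF htr {P, P'} (by
      intro Q hQ
      rw [Finset.mem_insert, Finset.mem_singleton] at hQ
      rcases hQ with rfl | rfl
      · exact h
      · exact h')
    rw [Finset.sum_pair hne, hfr] at h2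
    push_cast at h2
    omega
  · have h2 := FF.sum_ord_le hF htr {P} (by
      intro Q hQ
      rw [Finset.mem_singleton] at hQ
      rw [hQ]
      exact h)
    rw [Finset.sum_singleton, hfr] at h2
    push_cast at h2
    omega

end wrap

section line

open Pool.Agent.TOWS (Hyp trans32 gen32 chE32)

variable {k K0 E U : Type} [Field k] [NumberField k] [Field K0] [Field E] [Field U]
  [Algebra k K0] [Algebra k E] [Algebra E U] [Algebra K0 U] [Algebra k U] [IsScalarTower k E U]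
  [IsScalarTower k K0 U] {x : K0} {f : Polynomial k} {r : U}

theorem trX (H : Hyp E x f r) : Transcendental E (inL0 (E := E) (U := U) x) := by
  intro h
  exact trans32 H ((isAlgebraic_algebraMap_iff (R := E) (A := U)
    (algebraMap (L0 E K0 (U := U)) U).injective).2 h)

theorem trp (H : Hyp E x f r) (p : E) :
    Transcendental E (inL0 (E := E) (U := U) x - algebraMap E (L0 E K0 (U := U)) p) :=
  Pool.Agent.TOW.KX2aux.X_sub_tr (trX H) p

theorem X_ne (H : Hyp E x f r) : inL0 (E := E) (U := U) x ≠ 0 := by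
  intro h
  apply trX H
  rw [h]
  exact isAlgebraic_zero

theorem gen_inv (H : Hyp E x f r) : E⟮(inL0 (E := E) (U := U) x)⁻¹⟯ = ⊤ := by
  have h1 := gen32 H (0 : E)
  rw [map_zero, sub_zero] at h1
  rw [eq_top_iff, ← h1]
  refine IntermediateField.adjoin_le_iff.2 ?_
  intro z hz
  rw [Set.mem_singleton_iff] at hz
  rw [hz]
  have h3 := inv_mem (IntermediateField.mem_adjoin_simple_self E (inL0 (E := E) (U := U) x)⁻¹)
  rwa [inv_inv] at h3

theorem tr_inv (H : Hyp E x f r) : Transcendental E (inL0 (E := E) (U := U) x)⁻¹ := by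
  intro h
  apply trX H
  have := h.inv
  rwa [inv_inv] at this

theorem val_nonunits {b : Place E (L0 E K0 (U := U))} {e : E} (h : Val x b e) :
    inL0 (E := E) (U := U) x - algebraMap E (L0 E K0 (U := U)) e ∈ b.ring.nonunits := by
  rw [ValuationSubring.mem_nonunits_iff]
  exact h

theorem val_mem {b : Place E (L0 E K0 (U := U))} {e : E} (h : Val x b e) :
    inL0 (E := E) (U := U) x ∈ b.ring := by
  have h1 : Cg b.ring (inL0 (E := E) (U := U) x) e := h
  rw [← ValuationSubring.valuation_le_one_iff]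
  exact h1.le b.algebraMap_mem

/-- the place over a value is unique -/
theorem val_unique (H : Hyp E x f r) {b b' : Place E (L0 E K0 (U := U))} {e : E}
    (h : Val x b e) (h' : Val x b' e) : b = b' := by
  have := H.geo.clE
  exact (zero_unique H.geo.ff (trp H e) (gen32 H e) (val_nonunits h) (val_nonunits h')).1

theorem inf_nonunits {b : Place E (L0 E K0 (U := U))} (h : inL0 (E := E) (U := U) x ∉ b.ring) :
    (inL0 (E := E) (U := U) x)⁻¹ ∈ b.ring.nonunits := by
  rw [ValuationSubring.mem_nonunits_iff_or, inv_inv]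
  exact Or.inr h

/-- the place at infinity is unique -/
theorem inf_unique (H : Hyp E x f r) {b b' : Place E (L0 E K0 (U := U))}
    (h : inL0 (E := E) (U := U) x ∉ b.ring) (h' : inL0 (E := E) (U := U) x ∉ b'.ring) :
    b = b' := by
  have := H.geo.clE
  exact (zero_unique H.geo.ff (tr_inv H) (gen_inv H) (inf_nonunits h) (inf_nonunits h')).1

theorem ord_val (H : Hyp E x f r) {b : Place E (L0 E K0 (U := U))} {e : E} (h : Val x b e) :
    ord b.ring (inL0 (E := E) (U := U) x - algebraMap E (L0 E K0 (U := U)) e) = 1 := by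
  have := H.geo.clE
  exact (zero_unique H.geo.ff (trp H e) (gen32 H e) (val_nonunits h) (val_nonunits h)).2

theorem ord_val_ne (H : Hyp E x f r) {b : Place E (L0 E K0 (U := U))} {e p : E} (h : Val x b e)
    (hp : p ≠ e) :
    ord b.ring (inL0 (E := E) (U := U) x - algebraMap E (L0 E K0 (U := U)) p) = 0 := by
  have := H.geo.clE
  exact Pool.Agent.TOW.KX2aux.ord_sub_ne H.geo.ff (trX H) (val_nonunits h) hp

theorem ord_inf (H : Hyp E x f r) {b : Place E (L0 E K0 (U := U))}
    (h : inL0 (E := E) (U := U) x ∉ b.ring) (p : E) :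
    ord b.ring (inL0 (E := E) (U := U) x - algebraMap E (L0 E K0 (U := U)) p) = -1 := by
  have := H.geo.clE
  rw [Pool.Agent.TOW.KX2aux.ord_sub_inf H.geo.ff h]
  have h1 := (zero_unique H.geo.ff (tr_inv H) (gen_inv H) (inf_nonunits h) (inf_nonunits h)).2
  rw [FF.ord_inv H.geo.ff b (X_ne H)] at h1
  omega

theorem ne_p (H : Hyp E x f r) (p : E) :
    inL0 (E := E) (U := U) x - algebraMap E (L0 E K0 (U := U)) p ≠ 0 :=
  Pool.Agent.TOW.KX2aux.X_sub_ne (trX H) p

theorem exists_val (H : Hyp E x f r) {b : Place E (L0 E K0 (U := U))}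
    (h : inL0 (E := E) (U := U) x ∈ b.ring) : ∃ e : E, Val x b e := by
  have := H.geo.clE
  obtain ⟨e, he⟩ := FF.exists_residue H.geo.ff b h
  exact ⟨e, (ValuationSubring.mem_nonunits_iff _).1 he⟩

theorem val_eq {b : Place E (L0 E K0 (U := U))} {e e' : E} (h : Val x b e) (h' : Val x b e') :
    e = e' := by
  have h1 : Cg b.ring (inL0 (E := E) (U := U) x) e := h
  exact h1.unique b.algebraMap_mem h'

/-- `w_p w_q` -/
theorem isZ_two (H : Hyp E x f r) {p q : E} (hpq : p ≠ q) {b₁ b₂ : Place E (L0 E K0 (U := U))}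
    (h1 : Val x b₁ p) (h2 : Val x b₂ q) {wp wq : U}
    (hp : wp ^ 2 = algebraMap K0 U x - algebraMap E U p)
    (hq : wq ^ 2 = algebraMap K0 U x - algebraMap E U q) : IsZ b₁ b₂ (wp * wq) := by
  have := H.geo.clE
  have hp0 := ne_p H p
  have hq0 := ne_p H q
  have hf : (((inL0 (E := E) (U := U) x - algebraMap E (L0 E K0 (U := U)) p) *
      (inL0 (E := E) (U := U) x - algebraMap E (L0 E K0 (U := U)) q) : L0 E K0 (U := U)) : U) =
      (wp * wq) ^ 2 := by
    rw [mul_pow, hp, hq]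
    rfl
  refine ⟨?_, _, hf, fun P => ?_⟩
  · intro h
    rw [h, zero_pow two_ne_zero] at hf
    exact mul_ne_zero hp0 hq0 (Subtype.ext hf)
  · rw [FF.ord_mul H.geo.ff P hp0 hq0]
    by_cases hX : inL0 (E := E) (U := U) x ∈ P.ring
    · obtain ⟨e, he⟩ := exists_val H hX
      by_cases hep : p = e
      · subst hep
        rw [ord_val H he, ord_val_ne H he (Ne.symm hpq)]
        exact ⟨fun _ => Or.inl (val_unique H he h1), fun _ => by omega⟩
      · by_cases heq : q = e
        · subst heq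
          rw [ord_val H he, ord_val_ne H he hpq]
          exact ⟨fun _ => Or.inr (val_unique H he h2), fun _ => by omega⟩
        · rw [ord_val_ne H he hep, ord_val_ne H he heq]
          constructor
          · intro h
            exact absurd (dvd_zero _) h
          · rintro (rfl | rfl)
            · exact absurd (val_eq h1 he) hep
            · exact absurd (val_eq h2 he) heq
    · rw [ord_inf H hX, ord_inf H hX]
      constructor
      · intro h
        exact absurd ⟨-1, by norm_num⟩ h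
      · rintro (rfl | rfl)
        · exact absurd (val_mem h1) hX
        · exact absurd (val_mem h2) hX

/-- `w_p` -/
theorem isZ_one (H : Hyp E x f r) {p : E} {b₁ b₂ : Place E (L0 E K0 (U := U))}
    (h1 : Val x b₁ p) (h2 : inL0 (E := E) (U := U) x ∉ b₂.ring) {wp : U}
    (hp : wp ^ 2 = algebraMap K0 U x - algebraMap E U p) : IsZ b₁ b₂ wp := by
  have := H.geo.clE
  have hp0 := ne_p H p
  have hf : ((inL0 (E := E) (U := U) x - algebraMap E (L0 E K0 (U := U)) p :
      L0 E K0 (U := U)) : U) = wp ^ 2 := by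
    rw [hp]
    rfl
  refine ⟨?_, _, hf, fun P => ?_⟩
  · intro h
    rw [h, zero_pow two_ne_zero] at hf
    exact hp0 (Subtype.ext hf)
  · by_cases hX : inL0 (E := E) (U := U) x ∈ P.ring
    · obtain ⟨e, he⟩ := exists_val H hX
      by_cases hep : p = e
      · subst hep
        rw [ord_val H he]
        exact ⟨fun _ => Or.inl (val_unique H he h1), fun _ => by omega⟩
      · rw [ord_val_ne H he hep]
        constructor
        · intro h
          exact absurd (dvd_zero _) h
        · rintro (rfl | rfl)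
          · exact absurd (val_eq h1 he) hep
          · exact absurd hX h2
    · rw [ord_inf H hX]
      exact ⟨fun _ => Or.inr (inf_unique H hX h2), fun _ => by omega⟩

/-- fixed values -/
theorem val_fix {σ : E ≃+* E} {T : U ≃+* U} (hT : Semi K0 σ T)
    {b : Place E (L0 E K0 (U := U))} {e : E} (h : Val x b e) (hm : Moves T _ b b) : σ e = e := by
  have hx : algebraMap K0 U x ∈ L0 E K0 (U := U) := (inL0 (E := E) (U := U) x).2
  have hTx : T (algebraMap K0 U x) ∈ L0 E K0 (U := U) := by rw [hT.fixK]; exact hx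
  have h1 := (hm.cg hT.const hx hTx (c := e)).1 h
  have e1 : (⟨T (algebraMap K0 U x), hTx⟩ : L0 E K0 (U := U)) = inL0 x :=
    Subtype.ext (hT.fixK x)
  rw [e1] at h1
  exact (Cg.unique b.algebraMap_mem h1 h)

/-- signs -/
theorem exists_sign {F : Type} [Field F] {a b : F} (h : a ^ 2 = b ^ 2) :
    ∃ ε : ℤˣ, a = ((ε : ℤ) : F) * b := by
  rcases sq_eq_sq_iff_eq_or_eq_neg.1 h with h | h
  · exact ⟨1, by rw [h]; simp⟩
  · exact ⟨-1, by rw [h]; simp⟩

end line

end SG

open SG

/-- **Block W6a**, the pair `(∞, β)`. -/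
theorem sgInf : StmtSgInf := by
  intro k K0 E U _ _ _ _ _ _ _ _ _ _ _ _ x f r H β a b ha hb c Φ _ hΦ σ b₁ b₂ d hTd hm1 hm2 hσd z
    hz P P' hP hP' hmP hmP'
  have hcl := H.geo.clE
  have hchE : CharZero E := Pool.Agent.TOWS.chE32 H
  have hF := H.geo.ff
  obtain ⟨p, q, hp, hq, hpq, hpβ, hqβ, h1, h2, hd⟩ := hTd
  obtain ⟨wp, hwp⟩ := (Pool.Agent.TOW.kX2S H.geo H.gen H.tr H.sep H.odd).1 p hp
  obtain ⟨wq, hwq⟩ := (Pool.Agent.TOW.kX2S H.geo H.gen H.tr H.sep H.odd).1 q hq
  have hT : Semi K0 (σ : E ≃+* E) (Φ σ) := ⟨hΦ.const σ, hΦ.fixK σ⟩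
  have hσp : σ p = p := val_fix hT h1 hm1
  have hσq : σ q = q := val_fix hT h2 hm2
  have hz0 := isZ_two H hpq h1 h2 hwp hwq
  have hTwp : Φ σ (wp ^ 2) = wp ^ 2 := by
    rw [hwp, map_sub, hΦ.fixK, hΦ.const, hσp]
  have hTwq : Φ σ (wq ^ 2) = wq ^ 2 := by
    rw [hwq, map_sub, hΦ.fixK, hΦ.const, hσq]
  obtain ⟨ε, hε⟩ : ∃ ε : ℤˣ, Φ σ (wp * wq) = ((ε : ℤ) : U) * (wp * wq) := by
    apply exists_sign
    rw [← map_pow, mul_pow, map_mul, hTwp, hTwq]
  have hX0 := X_ne H
  have hd0 : d ≠ 0 := by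
    rintro rfl
    rw [zero_pow two_ne_zero] at hd
    exact mul_ne_zero (sub_ne_zero.2 (Ne.symm hpβ)) (sub_ne_zero.2 (Ne.symm hqβ)) hd.symm
  -- infinity
  have s1 : sgn (Φ σ) P z = ε * 1 := by
    refine sgn_wrap hF hz hz0 hP hT hmP (l := (inL0 x)⁻¹)
      (f0 := (1 - algebraMap E _ p * (inL0 x)⁻¹) * (1 - algebraMap E _ q * (inL0 x)⁻¹))
      (inv_ne_zero hX0) ?_ ?_ one_ne_zero ?_ hε ?_
    · show Φ σ (algebraMap K0 U x)⁻¹ = (algebraMap K0 U x)⁻¹
      rw [map_inv₀, hΦ.fixK]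
    · show (1 - algebraMap E U p * (algebraMap K0 U x)⁻¹) *
        (1 - algebraMap E U q * (algebraMap K0 U x)⁻¹) = (wp * wq * (algebraMap K0 U x)⁻¹) ^ 2
      have hxU : algebraMap K0 U x ≠ 0 := fun h => hX0 (Subtype.ext h)
      rw [mul_pow, mul_pow, hwp, hwq]
      field_simp
    · have hXi : Cg a.ring (inL0 (E := E) (U := U) x)⁻¹ (0 : E) := by
        unfold Cg
        rw [map_zero, sub_zero]
        exact (ValuationSubring.mem_nonunits_iff _).1 (inf_nonunits ha)
      have key : ∀ e : E, Cg a.ring (1 - algebraMap E _ e * (inL0 (E := E) (U := U) x)⁻¹)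
          (1 : E) := by
        intro e
        have h3 := (cg_const (V := a.ring) (1 : E)).add
          (((cg_const (V := a.ring) e).mul a.algebraMap_mem hXi).neg)
        rw [map_one, mul_zero, neg_zero, add_zero, ← sub_eq_add_neg] at h3
        exact h3
      have h4 := (key p).mul a.algebraMap_mem (key q)
      rw [one_mul] at h4
      rw [one_pow]
      exact h4
    · rw [map_one]; simp
  -- `β`
  have s2 : sgn (Φ σ) P' z = ε * (-1) := by
    refine sgn_wrap hF hz hz0 hP' hT hmP' (l := 1)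
      (f0 := (inL0 x - algebraMap E _ p) * (inL0 x - algebraMap E _ q))
      one_ne_zero ?_ ?_ hd0 ?_ hε ?_
    · exact map_one _
    · show (algebraMap K0 U x - algebraMap E U p) * (algebraMap K0 U x - algebraMap E U q) =
        (wp * wq * 1) ^ 2
      rw [mul_one, mul_pow, hwp, hwq]
    · have key : ∀ e : E, Cg b.ring (inL0 (E := E) (U := U) x - algebraMap E _ e) (β - e) := by
        intro e
        have h3 := Cg.add (V := b.ring) (x := inL0 (E := E) (U := U) x) (c := β) hb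
          ((cg_const (V := b.ring) e).neg)
        rw [← sub_eq_add_neg, ← sub_eq_add_neg] at h3
        exact h3
      rw [hd]
      exact (key p).mul b.algebraMap_mem (key q)
    · show σ d = _
      rw [hσd]; simp
  rw [s1, s2]
  intro h
  have h5 := mul_left_cancel h
  exact absurd h5 (by decide)

/-- **Block W6a**, the pair `(α, β)`. -/
theorem sgFin : StmtSgFin := by
  intro k K0 E U _ _ _ _ _ _ _ _ _ _ _ _ x f r H α β a b ha hb c Φ _ hΦ σ b₁ b₂ d hTd hm1 hm2 hσd
    z hz P P' hP hP' hmP hmP'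
  have hcl := H.geo.clE
  have hchE : CharZero E := Pool.Agent.TOWS.chE32 H
  have hF := H.geo.ff
  obtain ⟨p, hp, hpα, hpβ, h1, h2, hd⟩ := hTd
  obtain ⟨wp, hwp⟩ := (Pool.Agent.TOW.kX2S H.geo H.gen H.tr H.sep H.odd).1 p hp
  have hT : Semi K0 (σ : E ≃+* E) (Φ σ) := ⟨hΦ.const σ, hΦ.fixK σ⟩
  have hσp : σ p = p := val_fix hT h1 hm1
  have hLN : L0 E K0 (U := U) ≤ NN E K0 2 := L0_le_NN 2
  have hσα : σ α = α := val_fix hT ha (moves_over hLN hP hP hmP)
  have hσβ : σ β = β := val_fix hT hb (moves_over hLN hP' hP' hmP')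
  have hz0 := isZ_one H h1 h2 hwp
  obtain ⟨ε, hε⟩ : ∃ ε : ℤˣ, Φ σ wp = ((ε : ℤ) : U) * wp := by
    apply exists_sign
    rw [← map_pow, hwp, map_sub, hΦ.fixK, hΦ.const, hσp]
  obtain ⟨ρ, hρ⟩ := IsAlgClosed.exists_pow_nat_eq (α - p) two_pos
  obtain ⟨ρ', hρ'⟩ := IsAlgClosed.exists_pow_nat_eq (β - p) two_pos
  have hρ0 : ρ ≠ 0 := by
    rintro rfl
    rw [zero_pow two_ne_zero] at hρ
    exact sub_ne_zero.2 (Ne.symm hpα) hρ.symm
  have hρ'0 : ρ' ≠ 0 := by
    rintro rfl
    rw [zero_pow two_ne_zero] at hρ'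
    exact sub_ne_zero.2 (Ne.symm hpβ) hρ'.symm
  obtain ⟨δ, hδ⟩ : ∃ δ : ℤˣ, σ ρ = ((δ : ℤ) : E) * ρ := by
    apply exists_sign
    rw [← map_pow, hρ, map_sub, hσα, hσp]
  obtain ⟨δ', hδ'⟩ : ∃ δ' : ℤˣ, σ ρ' = ((δ' : ℤ) : E) * ρ' := by
    apply exists_sign
    rw [← map_pow, hρ', map_sub, hσβ, hσp]
  have key : ∀ (b : Place E (L0 E K0 (U := U))) (β : E), Val x b β → ∀ ρ : E,
      ρ ^ 2 = β - p → ρ ≠ 0 → ∀ P : Place E (NN E K0 2 (U := U)), OverPl b P →
      Moves (Φ σ) _ P P → ∀ δ : ℤˣ, σ ρ = ((δ : ℤ) : E) * ρ → sgn (Φ σ) P z = ε * δ := by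
    intro b β hb ρ hρ hρ0 P hP hmP δ hδ
    refine sgn_wrap hF hz hz0 hP hT hmP (l := 1) (f0 := inL0 x - algebraMap E _ p)
      one_ne_zero ?_ ?_ hρ0 ?_ hε hδ
    · exact map_one _
    · show algebraMap K0 U x - algebraMap E U p = (wp * 1) ^ 2
      rw [mul_one, hwp]
    · have h3 := Cg.add (V := b.ring) (x := inL0 (E := E) (U := U) x) (c := β) hb
        ((cg_const (V := b.ring) p).neg)
      rw [← sub_eq_add_neg, ← sub_eq_add_neg] at h3
      rw [hρ]
      exact h3
  rw [key a α ha ρ hρ hρ0 P hP hmP δ hδ, key b β hb ρ' hρ' hρ'0 P' hP' hmP' δ' hδ']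
  intro h
  have h5 : δ = δ' := mul_left_cancel h
  obtain ⟨η, hη⟩ : ∃ η : ℤˣ, d = ((η : ℤ) : E) * (ρ * ρ') := by
    apply exists_sign
    rw [hd, mul_pow, hρ, hρ']
  have h6 : σ d = d := by
    rw [hη, map_mul, map_mul, hδ, hδ', h5, map_intCast]
    have h7 : ((δ' : ℤ) : E) * ((δ' : ℤ) : E) = 1 := by
      rw [← Int.cast_mul, Int.units_coe_mul_self, Int.cast_one]
    linear_combination ((η : ℤ) : E) * ρ * ρ' * h7
  have hd0 : d ≠ 0 := by
    rintro rfl
    rw [zero_pow two_ne_zero] at hd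
    exact mul_ne_zero (sub_ne_zero.2 (Ne.symm hpα)) (sub_ne_zero.2 (Ne.symm hpβ)) hd.symm
  rw [hσd] at h6
  have h7 : (2 : E) * d = 0 := by linear_combination -h6
  rcases mul_eq_zero.1 h7 with h8 | h8
  · exact two_ne_zero h8
  · exact hd0 h8

end Pool.Agent.TW3
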