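import Pool.Agent.Helper37.TW3.Defs

/-!
# Project TW3, block W6a: the signs at two rational branch points (statements)
-/

set_option autoImplicit false

namespace Pool.Agent.TW3

open VC Filter Topology NumberField IsDedekindDomain IntermediateField Pool.Agent.SC Pool.Agent.L
open Pool.Agent.M (OverPl Moves BPl IsZ NN sgn inL0)

noncomputable section

section defs

variable {k K0 E U : Type} [Field k] [Field K0] [Field E] [Field U] [Algebra k K0]
  [Algebra k E] [Algebra E U] [Algebra K0 U]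

/-- the value of `x` at `b` is `e` -/
def Val (x : K0) (b : Place E (L0 E K0 (U := U))) (e : E) : Prop :=
  b.ring.valuation (inL0 x - algebraMap E _ e) < 1

/-- The triples for the pair `(∞, β)`: `b₁`, `b₂` over the roots `p`, `q`,
`d² = (β - p) (β - q)`. -/
def TInf (x : K0) (f : Polynomial k) (β : E) (b₁ b₂ : Place E (L0 E K0 (U := U))) (d : E) : Prop :=
  ∃ p q : E, Polynomial.aeval p f = 0 ∧ Polynomial.aeval q f = 0 ∧ p ≠ q ∧ p ≠ β ∧ q ≠ β ∧
    Val x b₁ p ∧ Val x b₂ q ∧ d ^ 2 = (β - p) * (β - q)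

/-- The triples for the pair `(α, β)`: `b₁` over the root `p`, `b₂` over infinity,
`d² = (α - p) (β - p)`. -/
def TFin (x : K0) (f : Polynomial k) (α β : E) (b₁ b₂ : Place E (L0 E K0 (U := U))) (d : E) :
    Prop :=
  ∃ p : E, Polynomial.aeval p f = 0 ∧ p ≠ α ∧ p ≠ β ∧ Val x b₁ p ∧ inL0 x ∉ b₂.ring ∧
    d ^ 2 = (α - p) * (β - p)

end defs

/-- BLOCK W6a, the pair `(∞, β)`. -/
def StmtSgInf : Prop :=
  ∀ (k K0 E U : Type) [Field k] [NumberField k] [Field K0] [Field E] [Field U] [Algebra k K0]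
    [Algebra k E] [Algebra E U] [Algebra K0 U] [Algebra k U] [IsScalarTower k E U]
    [IsScalarTower k K0 U] (x : K0) (f : Polynomial k) (r : U), Pool.Agent.TOWS.Hyp E x f r →
    ∀ (β : E) (a b : Place E (L0 E K0 (U := U))), inL0 x ∉ a.ring → Val x b β →
    ∀ (c : k) (Φ : (E ≃ₐ[k] E) →* (U ≃+* U)), c ≠ 0 → Act (K0 := K0) r c Φ →
    ∀ (σ : E ≃ₐ[k] E) b₁ b₂ d, TInf x f β b₁ b₂ d → Moves (Φ σ) _ b₁ b₁ → Moves (Φ σ) _ b₂ b₂ →
    σ d = -d → ∀ z : U, IsZ b₁ b₂ z → ∀ P P' : Place E (NN E K0 2 (U := U)), OverPl a P →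
    OverPl b P' → Moves (Φ σ) _ P P → Moves (Φ σ) _ P' P' → sgn (Φ σ) P z ≠ sgn (Φ σ) P' z

/-- BLOCK W6a, the pair `(α, β)`. -/
def StmtSgFin : Prop :=
  ∀ (k K0 E U : Type) [Field k] [NumberField k] [Field K0] [Field E] [Field U] [Algebra k K0]
    [Algebra k E] [Algebra E U] [Algebra K0 U] [Algebra k U] [IsScalarTower k E U]
    [IsScalarTower k K0 U] (x : K0) (f : Polynomial k) (r : U), Pool.Agent.TOWS.Hyp E x f r →
    ∀ (α β : E) (a b : Place E (L0 E K0 (U := U))), Val x a α → Val x b β →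
    ∀ (c : k) (Φ : (E ≃ₐ[k] E) →* (U ≃+* U)), c ≠ 0 → Act (K0 := K0) r c Φ →
    ∀ (σ : E ≃ₐ[k] E) b₁ b₂ d, TFin x f α β b₁ b₂ d → Moves (Φ σ) _ b₁ b₁ →
    Moves (Φ σ) _ b₂ b₂ →
    σ d = -d → ∀ z : U, IsZ b₁ b₂ z → ∀ P P' : Place E (NN E K0 2 (U := U)), OverPl a P →
    OverPl b P' → Moves (Φ σ) _ P P → Moves (Φ σ) _ P' P' → sgn (Φ σ) P z ≠ sgn (Φ σ) P' z

end

end Pool.Agent.TW3
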